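import Pool.Agent.Y142.ZI.Stm

/-!
Project Y142-ZI, task TYPU: local type `transitive outside one pair`.
-/

set_option autoImplicit false

open Matrix Polynomial Filter Topology NumberField IsDedekindDomain
open Pool.Agent.Y142.ZO Pool.Agent.Y142.ZI

namespace Pool.Agent.Y405.ZI

theorem charpoly_neg' {F : Type} [Field F] {m : ℕ} (A : Matrix (Fin m) (Fin m) F) :
    (-A).charpoly = (-1) ^ m * A.charpoly.comp (-X) := by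
  have h1 : A.charpoly.comp (-X) = (compRingHom (-X : F[X])) A.charpoly := rfl
  rw [h1, Matrix.charpoly, Matrix.charpoly, RingHom.map_det]
  have h2 : ((-1 : F[X]) ^ m) = (-1) ^ Fintype.card (Fin m) := by rw [Fintype.card_fin]
  rw [h2, ← Matrix.det_neg]
  congr 1
  ext i j
  by_cases h : i = j
  · subst h
    simp [charmatrix_apply_eq, add_comm]
  · simp [charmatrix_apply_ne _ _ _ h]

variable {ℓ : ℕ} [hℓ : Fact ℓ.Prime]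

theorem norm_two (h : ℓ ≠ 2) : ‖(2 : ℚ_[ℓ])‖ = 1 := by
  have h1 : ‖((2 : ℕ) : ℚ_[ℓ])‖ = 1 := by
    rw [Padic.norm_natCast_eq_one_iff]
    exact (Nat.coprime_primes hℓ.out Nat.prime_two).2 h
  exact_mod_cast h1

theorem charp {m : ℕ} (A : Matrix (Fin m) (Fin m) ℚ_[ℓ])
    (hA : A.charpoly = (X - C 1) ^ m - C (ℓ : ℚ_[ℓ])) :
    (-A).charpoly = (X - C (-1)) ^ m - C ((-1) ^ m * (ℓ : ℚ_[ℓ])) := by
  rw [charpoly_neg', hA]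
  simp only [sub_comp, pow_comp, X_comp, C_comp, map_mul, map_pow, map_neg, map_one, one_comp]
  have h1 : (-X - 1 : ℚ_[ℓ][X]) = (-1) * (X - -1) := by ring
  rw [h1, mul_pow, mul_sub, ← mul_assoc, ← mul_pow]
  simp

/-- the elementary part -/
theorem fin1 {K : Type} [Field K] {z₀ x y : K} (G : Set K) (T : Set (K ≃+* K))
    (S0 S1 : Set K) (h1 : ∀ x ∈ G, x ≠ z₀ → x ≠ z₀⁻¹ → x ∈ S1 ∨ x⁻¹ ∈ S1)
    (h2 : ∀ x ∈ S1, ∀ y ∈ S1, ∃ τ ∈ T, τ x = y) (h3 : ∀ τ ∈ T, τ z₀ ∈ S0)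
    (h4 : ∀ x ∈ S0, x = z₀ ∨ x = z₀⁻¹) (hx : x ∈ G) (hy : y ∈ G) (hx1 : x ≠ z₀)
    (hx2 : x ≠ z₀⁻¹) (hy1 : y ≠ z₀) (hy2 : y ≠ z₀⁻¹) :
    ∃ τ ∈ T, (τ z₀ = z₀ ∨ τ z₀ = z₀⁻¹) ∧ (τ x = y ∨ τ x = y⁻¹) := by
  rcases h1 x hx hx1 hx2 with hx' | hx' <;> rcases h1 y hy hy1 hy2 with hy' | hy'
  · obtain ⟨τ, hτ, h⟩ := h2 _ hx' _ hy'
    exact ⟨τ, hτ, h4 _ (h3 _ hτ), Or.inl h⟩
  · obtain ⟨τ, hτ, h⟩ := h2 _ hx' _ hy'
    exact ⟨τ, hτ, h4 _ (h3 _ hτ), Or.inr h⟩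
  · obtain ⟨τ, hτ, h⟩ := h2 _ hx' _ hy'
    refine ⟨τ, hτ, h4 _ (h3 _ hτ), Or.inr ?_⟩
    rw [map_inv₀] at h
    rw [← h, inv_inv]
  · obtain ⟨τ, hτ, h⟩ := h2 _ hx' _ hy'
    refine ⟨τ, hτ, h4 _ (h3 _ hτ), Or.inl ?_⟩
    rw [map_inv₀] at h
    exact inv_injective h

/-- the cluster of `1` -/
theorem clus0 (h2 : ℓ ≠ 2) {k : ℕ} {Q : ℚ_[ℓ][X]} (hQ1 : Q.eval 1 ≠ 0)
    {z : AlgebraicClosure ℚ_[ℓ]} (hz : z ∈ Clus ℓ k Q 0) (hcard : (Clus ℓ k Q 0).ncard = 2)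
    (hi : z⁻¹ ∈ Clus ℓ k Q 0) (hz0 : z ≠ 0) : ∀ x ∈ Clus ℓ k Q 0, x = z ∨ x = z⁻¹ := by
  have hne : z ≠ z⁻¹ := by
    intro he
    have h3 : z * z = 1 := by
      nth_rewrite 2 [he]
      exact mul_inv_cancel₀ hz0
    rcases mul_self_eq_one_iff.1 h3 with h4 | h4
    · apply hQ1
      have h5 := hz.1
      rw [h4, ← map_one (algebraMap ℚ_[ℓ] (AlgebraicClosure ℚ_[ℓ])), aeval_algebraMap_apply,
        ← map_zero (algebraMap ℚ_[ℓ] (AlgebraicClosure ℚ_[ℓ]))] at h5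
      have h6 := (algebraMap ℚ_[ℓ] (AlgebraicClosure ℚ_[ℓ])).injective h5
      simpa using h6
    · have h5 := hz.2
      rw [h4, mul_zero, map_zero, sub_zero] at h5
      have h6 : (-1 - 1 : AlgebraicClosure ℚ_[ℓ]) =
          algebraMap ℚ_[ℓ] (AlgebraicClosure ℚ_[ℓ]) (-2) := by
        rw [map_neg, map_ofNat]
        ring
      rw [h6] at h5
      have h7 : ‖algebraMap ℚ_[ℓ] (AlgebraicClosure ℚ_[ℓ]) (-2)‖ = ‖(-2 : ℚ_[ℓ])‖ :=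
        PadicAlgCl.norm_extends ℓ _
      rw [h7, norm_neg, norm_two h2] at h5
      have h8 : (1 : ℝ) ≤ (ℓ : ℝ) ^ k := one_le_pow₀ (by exact_mod_cast hℓ.out.one_lt.le)
      have h9 : ((ℓ : ℝ) ^ k)⁻¹ ≤ 1 := inv_le_one_of_one_le₀ h8
      linarith
  have hfin : (Clus ℓ k Q 0).Finite := Set.finite_of_ncard_ne_zero (by rw [hcard]; norm_num)
  have hsub : ({z, z⁻¹} : Set (AlgebraicClosure ℚ_[ℓ])) ⊆ Clus ℓ k Q 0 := by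
    rintro x (rfl | rfl)
    · exact hz
    · exact hi
  have heq := Set.eq_of_subset_of_ncard_le hsub (by rw [hcard, Set.ncard_pair hne]) hfin
  intro x hx
  rw [← heq] at hx
  exact hx

theorem t (h : S_CLQ) (hc : S_COMP) : S_TYPU := by
  intro ℓ hℓ m hm hm0
  have h2 : ℓ ≠ 2 := by omega
  have hd : ((X - C 1 : ℚ_[ℓ][X]) ^ m - C (ℓ : ℚ_[ℓ])).natDegree = m := by
    rw [natDegree_sub_C, natDegree_pow, natDegree_X_sub_C, mul_one]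
  have hmon : ((X - C 1 : ℚ_[ℓ][X]) ^ m - C (ℓ : ℚ_[ℓ])).Monic := by
    apply ((monic_X_sub_C 1).pow m).sub_of_left
    refine degree_C_le.trans_lt ?_
    rw [degree_pow, degree_X_sub_C, nsmul_eq_mul, mul_one]
    exact_mod_cast hm0
  obtain ⟨A, hA⟩ := hc ℚ_[ℓ] m _ hmon hd
  have hA' := charp A hA
  refine ⟨A, fun c hcn => ?_⟩
  have hn2 := norm_two (ℓ := ℓ) h2
  obtain ⟨ε, hε, hQ⟩ := h ℓ h2 (Fin 3) ![0, 1, -1] ![c, (ℓ : ℚ_[ℓ]), (-1) ^ m * (ℓ : ℚ_[ℓ])]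
    ![2, m, m] (by intro j; fin_cases j <;> simp)
    (by
      intro i j hij
      fin_cases i <;> fin_cases j <;> simp at hij ⊢
      · rw [show (1 + 1 : ℚ_[ℓ]) = 2 by norm_num, hn2]
      · rw [show (-1 - 1 : ℚ_[ℓ]) = -2 by norm_num, norm_neg, hn2])
    (by intro j; fin_cases j <;> simp [hm0])
    (by intro j; fin_cases j <;> simp [hcn])
  refine ⟨ε, hε, ?_⟩
  intro k Q hk hQm hQd hinv hcoef F hF
  obtain ⟨-, q1, q2, -, q4, q5, q6, q7⟩ := hQ k Q hk hQm (by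
    rw [hQd, Fin.sum_univ_three]
    simp
    ring) hinv (by
    intro i
    have h3 : ∏ j : Fin 3, ((X - C ((![0, 1, -1] : Fin 3 → ℚ_[ℓ]) j)) ^
        ((![2, m, m] : Fin 3 → ℕ) j) -
          C ((![c, (ℓ : ℚ_[ℓ]), (-1) ^ m * (ℓ : ℚ_[ℓ])] : Fin 3 → ℚ_[ℓ]) j)) =
        (X ^ 2 - C c) * A.charpoly * (-A).charpoly := by
      rw [Fin.prod_univ_three, hA, hA']
      simp
    rw [h3]
    exact hcoef i)
  have hQ1 : Q.eval 1 ≠ 0 := q1 (by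
    intro j hj
    fin_cases j
    · rfl
    · simp at hj
    · simp at hj)
  have e0 : Clus ℓ k Q ((![0, 1, -1] : Fin 3 → ℚ_[ℓ]) 0) = Clus ℓ k Q 0 := rfl
  have hcard := q4 0
  rw [e0] at hcard
  have hcard' : (Clus ℓ k Q 0).ncard = 2 := hcard
  obtain ⟨z₀, hz₀⟩ : (Clus ℓ k Q 0).Nonempty := by
    apply Set.nonempty_of_ncard_ne_zero
    rw [hcard']
    norm_num
  have hz0 : z₀ ≠ 0 := (hinv z₀ hz₀.1).1
  have hzi : z₀⁻¹ ∈ Clus ℓ k Q 0 := q5 0 0 (by simp) z₀ hz₀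
  have hcl := clus0 h2 hQ1 hz₀ hcard' hzi hz0
  refine ⟨z₀, hz₀.1, ?_⟩
  intro x y hx hy hx1 hx2 hy1 hy2
  have key : ∀ x : AlgebraicClosure ℚ_[ℓ], aeval x Q = 0 → x ≠ z₀ → x ≠ z₀⁻¹ →
      x ∈ Clus ℓ k Q 1 ∨ x⁻¹ ∈ Clus ℓ k Q 1 := by
    intro x hx hx1 hx2
    obtain ⟨j, hj⟩ := q2 x hx
    fin_cases j
    · exfalso
      rcases hcl x hj with h4 | h4
      · exact hx1 h4
      · exact hx2 h4
    · exact Or.inl hj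
    · exact Or.inr (q5 1 2 (by simp) x hj)
  obtain ⟨τ, ⟨τ', hτ'⟩, h5, h6⟩ := fin1 (z₀ := z₀) {x | aeval x Q = 0}
    {τ : AlgebraicClosure ℚ_[ℓ] ≃+* AlgebraicClosure ℚ_[ℓ] |
      ∃ τ' : AlgebraicClosure ℚ_[ℓ] ≃ₐ[F] AlgebraicClosure ℚ_[ℓ], ∀ x, τ x = τ' x}
    (Clus ℓ k Q 0) (Clus ℓ k Q 1) key
    (by
      intro x hx y hy
      obtain ⟨τ, hτ⟩ := q7 F hF 1 x hx y hy
      exact ⟨τ.toRingEquiv, ⟨τ, fun _ => rfl⟩, hτ⟩)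
    (by
      rintro τ ⟨τ', hτ'⟩
      rw [hτ']
      exact q6 (τ'.restrictScalars ℚ_[ℓ]) 0 z₀ hz₀)
    hcl hx hy hx1 hx2 hy1 hy2
  rw [hτ'] at h5 h6
  exact ⟨τ', h5, h6⟩

end Pool.Agent.Y405.ZI
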